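import Pool.Agent.H72.UZ.TarZ
import Pool.Agent.H45.UZ.TarP

/-! # MP_f6fd33_lc: row QD (the new system: secured facts) -/

set_option linter.unusedVariables false

open Ordinal Order Set
open scoped ZFSet

namespace SE.UZ

open SF

theorem pf_QD (hBA : T_BA) (hBJ : T_BJ) (hW0 : T_W0) (hQ1 : T_Q1) (hQ2 : T_Q2) (hW1 : T_W1)
    (hQRN : T_QRN) : T_QD := by
  intro D κ b hK hb c hc
  obtain ⟨-, hOb, hU, hLe, hRi, hT, hSc⟩ := hQ1 D κ b hK hb c hc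
  refine ⟨?_, ?_⟩
  · intro B p a x hz
    obtain ⟨T, p', a', x', hTw, hp, ha, hx, he, -⟩ := (hSc _).1 hz
    obtain ⟨rfl, h1⟩ := ZFSet.pair_injective he
    obtain ⟨rfl, h2⟩ := ZFSet.pair_injective h1
    obtain ⟨rfl, rfl⟩ := ZFSet.pair_injective h2
    rw [hU B hTw]
    exact ⟨(hOb B).2 hTw, hp, ha, hx.1, hx.2⟩
  · intro C B hCB G hG a x ha hx
    have hL := (hLe C B).1 hCB
    rw [hU B hL.t'] at hG
    rw [hU C hL.t] at ha hx
    obtain ⟨bH, bC, -⟩ := hW0 D κ b hK hb B hL.t'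
    obtain ⟨cH, cC, -⟩ := hW0 D κ b hK hb C hL.t
    have bN : D.N (b.ut κ B) := (hBJ D hK.ok).2.2.1 _ bH
    have cN : D.N (b.ut κ C) := (hBJ D hK.ok).2.2.1 _ cH
    have cT : Tr (b.ut κ C) := (hBA.2.2.2.2.2.2 D.L _ cC.c).1
    obtain ⟨-, -, -, w4, w5⟩ := hW1 D κ b hK hb
    have hsub := (w4 C B hL).1
    obtain ⟨-, -, q3, -, q5, -, q7, -⟩ := hQRN D hK.ok (b.ut κ B) G (b.ut κ C) bN bC.c hG cN
      hsub cT
    have h1 := hQ2 D κ b hK hb C hL.t (b.ut κ B) bN bC.c hsub G hG a x ha hx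
    have h2 := hQ2 D κ b hK hb B hL.t' (b.ut κ B) bN bC.c (fun _ h => h) G hG a x (q3 a ha)
      (q3 x hx)
    have h3 := (w5 C B hL (b.ut κ B) bN bC.c (fun _ h => h) G hG (prl (kc 0) (prl a x))
      (q5 _ _ (q7 0) (q5 _ _ ha hx))).1
    rw [← hc] at h1 h2
    rw [h1, h2, h3]

end SE.UZ
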